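import Mathlib
import Pool.Agent.X152.DS.Ae

set_option autoImplicit false

/-!
# MP_0863b8_nt: the inhomogeneous Duffin–Schaeffer theorem under (H1), (H2)

(1) For every rational `δ` the (H1)-(H2) theorem of Duffin and Schaeffer holds with shift `δ`,
with coprime pairs `(n, r)`.
(2), (3) The same for every real `δ` when `Φ` is bounded and, at infinitely many `N` at which the
ratio in (H2) is at least `c`, a gcd-sum condition (resp. a bound for the size of the support of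
`Φ`) is satisfied.
-/

namespace Pool.Agent.Results.MP_0863b8_nt.CoprimeInhomogeneous

open MeasureTheory Filter

theorem result :
    (∀ δ : ℚ, ∀ Φ : ℕ → ℝ, (∀ n, 0 ≤ Φ n) →
      ¬ Summable (fun n : ℕ => (Nat.totient n : ℝ) / (n : ℝ) * Φ n) →
      (∃ c : ℝ, 0 < c ∧ ∃ᶠ N : ℕ in atTop,
          c * (∑ n ∈ Finset.Icc 1 N, Φ n) ≤
            ∑ n ∈ Finset.Icc 1 N, (Nat.totient n : ℝ) / (n : ℝ) * Φ n) →
      ∀ᵐ β : ℝ, ∃ᶠ n : ℕ in atTop, ∃ r : ℤ, Int.gcd r (n : ℤ) = 1 ∧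
        |(n : ℝ) * β - (r : ℝ) - (δ : ℝ)| < Φ n) ∧
    (∀ δ : ℝ, ∀ Φ : ℕ → ℝ, (∀ n, 0 ≤ Φ n) → (∃ B : ℝ, ∀ n, Φ n ≤ B) →
      ¬ Summable (fun n : ℕ => (Nat.totient n : ℝ) / (n : ℝ) * Φ n) →
      (∃ c C : ℝ, 0 < c ∧ ∃ᶠ N : ℕ in atTop,
          c * (∑ n ∈ Finset.Icc 1 N, Φ n) ≤
            ∑ n ∈ Finset.Icc 1 N, (Nat.totient n : ℝ) / (n : ℝ) * Φ n ∧
          ∑ n ∈ (Finset.Icc 1 N).filter (fun n : ℕ => c / 2 * (n : ℝ) ≤ (Nat.totient n : ℝ)),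
            ∑ m ∈ (Finset.Icc 1 N).filter
                (fun m : ℕ => c / 2 * (m : ℝ) ≤ (Nat.totient m : ℝ) ∧ m < n),
              (Nat.gcd m n : ℝ) * min (Φ m / (m : ℝ)) (Φ n / (n : ℝ)) ≤
            C * (∑ n ∈ Finset.Icc 1 N, (Nat.totient n : ℝ) / (n : ℝ) * Φ n) ^ 2) →
      ∀ᵐ β : ℝ, ∃ᶠ n : ℕ in atTop, ∃ r : ℤ, Int.gcd r (n : ℤ) = 1 ∧
        |(n : ℝ) * β - (r : ℝ) - δ| < Φ n) ∧
    (∀ δ : ℝ, ∀ Φ : ℕ → ℝ, (∀ n, 0 ≤ Φ n) → (∃ B : ℝ, ∀ n, Φ n ≤ B) →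
      ¬ Summable (fun n : ℕ => (Nat.totient n : ℝ) / (n : ℝ) * Φ n) →
      (∃ c C : ℝ, 0 < c ∧ ∃ᶠ N : ℕ in atTop,
          c * (∑ n ∈ Finset.Icc 1 N, Φ n) ≤
            ∑ n ∈ Finset.Icc 1 N, (Nat.totient n : ℝ) / (n : ℝ) * Φ n ∧
          (((Finset.Icc 1 N).filter (fun n : ℕ => 0 < Φ n)).card : ℝ) ≤
            C * (∑ n ∈ Finset.Icc 1 N, (Nat.totient n : ℝ) / (n : ℝ) * Φ n) ^ 2) →
      ∀ᵐ β : ℝ, ∃ᶠ n : ℕ in atTop, ∃ r : ℤ, Int.gcd r (n : ℤ) = 1 ∧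
        |(n : ℝ) * β - (r : ℝ) - δ| < Φ n) := by
  refine ⟨?_, ?_, ?_⟩
  · intro δ Φ hΦ hdiv hcomp
    have e : ∀ n : ℕ, (Nat.totient n : ℝ) / (n : ℝ) * Φ n = (Nat.totient n : ℝ) * Φ n / (n : ℝ) :=
      fun n => div_mul_eq_mul_div _ _ _
    simp only [e] at hdiv hcomp
    exact Pool.Agent.X152.DS.ae_coprime (fun _ => (δ : ℝ)) Φ
      (Pool.Agent.X152.DS.thm_rat δ.den δ.den_pos (fun _ => δ) (fun _ => dvd_rfl) Φ hΦ hdiv hcomp)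
  · intro δ Φ hΦ hbd hdiv hcomp
    have e : ∀ n : ℕ, (Nat.totient n : ℝ) / (n : ℝ) * Φ n = (Nat.totient n : ℝ) * Φ n / (n : ℝ) :=
      fun n => div_mul_eq_mul_div _ _ _
    simp only [e] at hdiv hcomp
    exact Pool.Agent.X152.DS.ae_coprime (fun _ => δ) Φ
      (Pool.Agent.X152.DS.thm_gcd (fun _ => δ) Φ hΦ hbd hdiv hcomp)
  · intro δ Φ hΦ hbd hdiv hcomp
    have e : ∀ n : ℕ, (Nat.totient n : ℝ) / (n : ℝ) * Φ n = (Nat.totient n : ℝ) * Φ n / (n : ℝ) :=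
      fun n => div_mul_eq_mul_div _ _ _
    simp only [e] at hdiv hcomp
    exact Pool.Agent.X152.DS.ae_coprime (fun _ => δ) Φ
      (Pool.Agent.X152.DS.thm_card (fun _ => δ) Φ hΦ hbd hdiv hcomp)

end Pool.Agent.Results.MP_0863b8_nt.CoprimeInhomogeneous
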